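import Mathlib
import Pool.Agent.Lib.MP_dc84f7_lc.StepB

/-!
# Uniform categoricity within every uniformly computable collection does not give uniform
categoricity

There are a computable directed graph `A` and a Turing degree `d`, the degree of a generic `D`,
such that `A` is uniformly `d`-computably categorical within every uniformly computable collection
of copies of `A`, but is not uniformly `d`-computably categorical.

The graph `A = S []` is the tree of descending sequences of a computable relation in which every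
computable tree embeds; the set `X` of those `n` for which the computable graph `S [(n, [])]` is a
copy of `A` has a complement that is not `Σ¹₁`. The function `D` is generic for forcing with
effectively closed sets that restrict only finitely many columns beyond a finite sequence. A
uniformly computable collection of copies is dealt with by coding isomorphisms into a new column
(`stepA`); a functional is defeated at some `S [(n, [])]` with `n ∈ X`, since otherwise the
complement of `X` would be `Σ¹₁` (`stepB`).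
-/

set_option autoImplicit false

namespace Pool.Agent.Results.MP_dc84f7_lc.WithinNotUniform

open Pool.Agent.Lib.MP_dc84f7_lc Encodable

theorem graph_eq {e : ℕ} {M M' : Graph} (h : IsIndex e M) (h' : IsIndex e M') : M = M' := by
  have h1 : ∀ n, M.diag n = M'.diag n := by
    intro n
    have h2 := (h n).symm.trans (h' n)
    exact Part.some_injective h2
  have h3 : M.dom = M'.dom := by
    ext x
    rw [← diag_dom, ← diag_dom, h1]
  have h4 : M.adj = M'.adj := by
    funext x y
    rw [eq_iff_iff, ← diag_adj, ← diag_adj, h1]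
  obtain ⟨d, a, p⟩ := M
  obtain ⟨d', a', p'⟩ := M'
  simp only at h3 h4
  subst h3 h4
  rfl

theorem countable_computable : Countable {f : ℕ → ℕ // Computable f} := by
  have h : ∀ f : {f : ℕ → ℕ // Computable f}, ∃ c : Nat.Partrec.Code, c.eval = (f.1 : ℕ →. ℕ) :=
    fun f => Nat.Partrec.Code.exists_code.1 (Partrec.nat_iff.1 f.2)
  choose c hc using h
  refine Function.Injective.countable (f := c) ?_
  intro f g hfg
  apply Subtype.ext
  have h1 : (f.1 : ℕ →. ℕ) = (g.1 : ℕ →. ℕ) := by rw [← hc f, ← hc g, hfg]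
  funext n
  have h2 := congrFun h1 n
  exact Part.some_injective h2

theorem countable_functional :
    Countable {Ψ : List ℕ → ℕ →. ℕ // Partrec₂ Ψ ∧ Mono Ψ} := by
  have h : ∀ Ψ : {Ψ : List ℕ → ℕ →. ℕ // Partrec₂ Ψ ∧ Mono Ψ}, ∃ c : Nat.Partrec.Code,
      c.eval = fun n => Part.bind (decode (α := List ℕ × ℕ) n) fun a : List ℕ × ℕ =>
        (Ψ.1 a.1 a.2).map encode :=
    fun Ψ => Nat.Partrec.Code.exists_code.1 Ψ.2.1
  choose c hc using h
  refine Function.Injective.countable (f := c) ?_
  intro f g hfg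
  apply Subtype.ext
  have h1 := (hc f).symm.trans ((congrArg Nat.Partrec.Code.eval hfg).trans (hc g))
  funext σ x
  have h2 := congrFun h1 (encode (σ, x))
  simp only [encodek, Part.coe_some, Part.bind_some] at h2
  have h3 : (encode : ℕ → ℕ) = id := rfl
  rw [h3, Part.map_id', Part.map_id'] at h2
  · exact h2
  · intro x; rfl
  · intro x; rfl

theorem result : ∃ (A : Graph) (D : ℕ → ℕ), Computable A.diag ∧ ¬ UnifCategorical A D ∧
    ∀ C : ℕ → Graph, UnifCollection A C → UnifCategoricalWithin A C D := by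
  classical
  have := countable_computable
  have := countable_functional
  let ι := {f : ℕ → ℕ // Computable f} ⊕ {Ψ : List ℕ → ℕ →. ℕ // Partrec₂ Ψ ∧ Mono Ψ}
  let R : ι → Set (ℕ → ℕ) := fun i => match i with
    | Sum.inl f => {D | ∀ C : ℕ → Graph, (∀ i, ∃ g, IsIso (S []) (C i) g) →
        (∀ i, IsIndex (f.1 i) (C i)) → UnifCategoricalWithin (S []) C D}
    | Sum.inr Ψ => {D | ∃ (e : ℕ) (B : Graph), IsIndex e B ∧ (∃ f, IsIso (S []) B f) ∧
        ¬ ∃ f, IsIso (S []) B f ∧ ∀ x ∈ (S []).dom, ∃ k, f x ∈ Ψ.1 (restr D k) (Nat.pair e x)}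
  have hR : ∀ i (p : Cond), ∃ q : Cond, q.set ⊆ p.set ∧ q.set ⊆ R i := by
    rintro (f | Ψ) p
    · by_cases h : ∃ C : ℕ → Graph, (∀ i, ∃ g, IsIso (S []) (C i) g) ∧ ∀ i, IsIndex (f.1 i) (C i)
      · obtain ⟨C, hC1, hC2⟩ := h
        obtain ⟨q, hq1, hq2⟩ := stepA C ⟨hC1, f.1, f.2, hC2⟩ p
        refine ⟨q, hq1, ?_⟩
        intro D hD C' _ hC2'
        have : C' = C := funext fun i => graph_eq (hC2' i) (hC2 i)
        rw [this]
        exact hq2 D hD
      · refine ⟨p, subset_rfl, ?_⟩
        intro D _ C' h1 h2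
        exact absurd ⟨C', h1, h2⟩ h
    · obtain ⟨q, hq1, hq2⟩ := stepB Ψ.1 Ψ.2.1 Ψ.2.2 p
      exact ⟨q, hq1, hq2⟩
  obtain ⟨D, hD⟩ := exists_generic R hR Cond.triv
  refine ⟨S [], D, ?_, ?_, ?_⟩
  · exact comp_two (F := fun p n => (S p).diag n) diag_comp (Computable.const []) Computable.id
  · rintro ⟨g, hg, hg'⟩
    obtain ⟨Ψ, h1, h2, h3⟩ := exists_functional (RecursiveIn.iff_nat.1 hg)
    obtain ⟨e, B, hB, hB', hno⟩ := hD (Sum.inr ⟨Ψ, h1, h2⟩)
    obtain ⟨f, hf, hf'⟩ := hg' e B hB hB'
    refine hno ⟨f, hf, ?_⟩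
    intro x hx
    rw [← h3, hf' x hx]
    exact Part.mem_some _
  · rintro C ⟨hC, f, hf, hf'⟩
    exact hD (Sum.inl ⟨f, hf⟩) C hC hf'

end Pool.Agent.Results.MP_dc84f7_lc.WithinNotUniform
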